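import Pool.Agent.P.MP_667fa2_an.Main

/-! Sobolev homeomorphisms of a ball, equal to the identity on the boundary, whose Jacobian is
negative almost everywhere in the unit cube, for every `n ≥ 4` and `1 ≤ p < [n/2]`. -/

namespace Pool.Agent.Results.MP_667fa2_an.NegativeJacobian

open Set MeasureTheory Metric
open scoped ContDiff

/-- Euclidean space `ℝ^n`. -/
abbrev Euc (n : ℕ) := EuclideanSpace ℝ (Fin n)

/-- The closed unit cube `[0,1]^n`. -/
def unitCube (n : ℕ) : Set (Euc n) := {x | ∀ i, 0 ≤ x i ∧ x i ≤ 1}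

/-- `u` lies in `L^p(Ω)` for Lebesgue measure. -/
def InLp {n : ℕ} (p : ℝ) (Ω : Set (Euc n)) (u : Euc n → ℝ) : Prop :=
  MemLp u (ENNReal.ofReal p) (volume.restrict Ω)

/-- `φ` is smooth with compact support contained in `Ω`. -/
def IsTest {n : ℕ} (Ω : Set (Euc n)) (φ : Euc n → ℝ) : Prop :=
  ContDiff ℝ ∞ φ ∧ HasCompactSupport φ ∧ tsupport φ ⊆ Ω

/-- The derivative of `φ` at `x` in the `j`-th coordinate direction. -/
noncomputable def coordDeriv {n : ℕ} (φ : Euc n → ℝ) (j : Fin n) (x : Euc n) : ℝ :=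
  fderiv ℝ φ x (EuclideanSpace.single j 1)

/-- `g` is the weak derivative of `u` in `Ω` in the `j`-th coordinate direction. -/
def IsWeakDeriv {n : ℕ} (Ω : Set (Euc n)) (u : Euc n → ℝ) (j : Fin n) (g : Euc n → ℝ) : Prop :=
  ∀ φ, IsTest Ω φ → ∫ x in Ω, u x * coordDeriv φ j x = -∫ x in Ω, g x * φ x

/-- The coordinates of `F` lie in `W^{1,p}(Ω)` and `D` is the matrix of their weak derivatives. -/
def InW1p {n : ℕ} (p : ℝ) (Ω : Set (Euc n)) (F : Euc n → Euc n)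
    (D : Euc n → Matrix (Fin n) (Fin n) ℝ) : Prop :=
  ∀ i, InLp p Ω (fun x => F x i) ∧
    ∀ j, InLp p Ω (fun x => D x i j) ∧ IsWeakDeriv Ω (fun x => F x i) j fun x => D x i j

theorem result (n : ℕ) (hn : 4 ≤ n) (p : ℝ) (hp : 1 ≤ p) (hpn : p < ((n / 2 : ℕ) : ℝ)) (R : ℝ)
    (hR : unitCube n ⊆ ball 0 R) :
    ∃ (f : closedBall (0 : Euc n) R ≃ₜ closedBall (0 : Euc n) R) (F : Euc n → Euc n)
      (D : Euc n → Matrix (Fin n) (Fin n) ℝ), (∀ x, (f x : Euc n) = F x) ∧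
      (∀ x ∈ sphere 0 R, F x = x) ∧ InW1p p (ball 0 R) F D ∧
      ∀ᵐ x, x ∈ unitCube n → (D x).det < 0 := by
  obtain ⟨f, F, D, h1, h2, h3, h4, h5, h6⟩ :=
    Pool.Agent.P.MP_667fa2_an.exists_map n hn p hp hpn R hR
  exact ⟨f, F, D, h1, h2,
    fun i => ⟨h3 i, fun j => ⟨h4 i j, fun φ h => h5 i j φ h.1 h.2.1 h.2.2⟩⟩, h6⟩

end Pool.Agent.Results.MP_667fa2_an.NegativeJacobian
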